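import Pool.Agent.H355R3.UF.Stmts

set_option autoImplicit false

namespace Pool.Agent.H105R3.UF

open H355R3 RegularWreathProduct

/-- Kaluzhnin–Krasner type embedding: `P` embeds in `ker q ≀ X` for every homomorphism
`q : P → X`. -/
theorem exists_embedding (P X : Type) [Group P] [Group X] (q : P →* X) :
    ∃ θ : P →* RegularWreathProduct q.ker X, Function.Injective θ := by
  classical
  have hsec : ∀ v : X, ∃ g : P, v ∈ q.range → q g = v := by
    intro v
    by_cases hv : v ∈ q.range
    · obtain ⟨g, hg⟩ := hv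
      exact ⟨g, fun _ => hg⟩
    · exact ⟨1, fun h => absurd h hv⟩
  choose s hs using hsec
  have hrange : ∀ (k : P) (v : X), v ∈ q.range ↔ (q k)⁻¹ * v ∈ q.range := by
    intro k v
    constructor
    · rintro ⟨g, rfl⟩
      exact ⟨k⁻¹ * g, by simp⟩
    · rintro ⟨g, hg⟩
      exact ⟨k * g, by rw [map_mul, hg, mul_inv_cancel_left]⟩
  let τ : P → X → P := fun k v => if v ∈ q.range then (s v)⁻¹ * k * s ((q k)⁻¹ * v) else 1
  have hτ1 : ∀ k v, v ∈ q.range → τ k v = (s v)⁻¹ * k * s ((q k)⁻¹ * v) := by
    intro k v hv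
    exact if_pos hv
  have hτ2 : ∀ k v, v ∉ q.range → τ k v = 1 := by
    intro k v hv
    exact if_neg hv
  have hτker : ∀ k v, τ k v ∈ q.ker := by
    intro k v
    by_cases hv : v ∈ q.range
    · rw [hτ1 k v hv, MonoidHom.mem_ker, map_mul, map_mul, map_inv, hs v hv,
        hs _ ((hrange k v).mp hv)]
      group
    · rw [hτ2 k v hv]
      exact one_mem _
  have hτmul : ∀ k k' v, τ (k * k') v = τ k v * τ k' ((q k)⁻¹ * v) := by
    intro k k' v
    by_cases hv : v ∈ q.range
    · rw [hτ1 _ v hv, hτ1 _ v hv, hτ1 _ _ ((hrange k v).mp hv)]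
      have e : (q (k * k'))⁻¹ * v = (q k')⁻¹ * ((q k)⁻¹ * v) := by
        rw [map_mul]; group
      rw [e]
      group
    · rw [hτ2 _ v hv, hτ2 _ v hv, hτ2 _ _ (fun h => hv ((hrange k v).mpr h)), one_mul]
  let θ : P →* RegularWreathProduct q.ker X :=
    { toFun := fun k => ⟨fun v => ⟨τ k v, hτker k v⟩, q k⟩
      map_one' := by
        apply RegularWreathProduct.ext
        · funext v
          apply Subtype.ext
          show τ 1 v = 1
          by_cases hv : v ∈ q.range
          · rw [hτ1 _ v hv, map_one]
            simp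
          · exact hτ2 _ v hv
        · exact map_one q
      map_mul' := by
        intro k k'
        apply RegularWreathProduct.ext
        · funext v
          apply Subtype.ext
          exact hτmul k k' v
        · exact map_mul q k k' }
  refine ⟨θ, ?_⟩
  rw [injective_iff_map_eq_one]
  intro k hk
  have h1 : q k = 1 := congrArg RegularWreathProduct.right hk
  have h2 := congrFun (congrArg RegularWreathProduct.left hk) 1
  have h3 : τ k 1 = 1 := congrArg Subtype.val h2
  rw [hτ1 k 1 (one_mem _), h1, inv_one, one_mul] at h3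
  have h4 : k = s 1 * ((s 1)⁻¹ * k * s 1) * (s 1)⁻¹ := by group
  rw [h4, h3]
  group

theorem taskG_aux (p : ℕ) [hp : Fact p.Prime] (A : Formation) (X : Type) [Group X] [Finite X]
    [Nontrivial X] (hX : IsPGroup p X)
    (hsub : ∀ (M : Type) [Group M] [Finite M], A.Mem M → ∀ H : Subgroup M, A.Mem H)
    (hwr : ∀ (M : Type) [Group M] [Finite M], A.Mem M → A.Mem (RegularWreathProduct M X))
    (n : ℕ) : ∀ (P : Type) [Group P] [Finite P], Nat.card P ≤ n → IsPGroup p P → A.Mem P := by
  induction n with
  | zero =>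
    intro P _ _ h _
    exact absurd h (by have := Nat.card_pos (α := P); omega)
  | succ n ih =>
    intro P _ _ hcard hP
    by_cases hnt : Nontrivial P
    swap
    · rw [not_nontrivial_iff_subsingleton] at hnt
      exact A.mem_of_subsingleton
    obtain ⟨f, hf⟩ := exists_surj_Zp (p := p) P hP
    have hdvd : p ∣ Nat.card X := by
      obtain ⟨m, hm⟩ := hX.exists_card_eq
      have hm0 : m ≠ 0 := by
        rintro rfl
        rw [pow_zero, Nat.card_eq_one_iff_unique] at hm
        exact not_nontrivial_iff_subsingleton.2 hm.1 inferInstance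
      rw [hm]
      exact dvd_pow_self p hm0
    obtain ⟨x, hx⟩ := exists_prime_orderOf_dvd_card' p hdvd
    have hzcard : Nat.card (Subgroup.zpowers x) = p := by
      rw [Nat.card_zpowers, hx]
    obtain ⟨e⟩ := nonempty_equiv_Zp (Subgroup.zpowers x) hzcard
    let q : P →* X := ((Subgroup.zpowers x).subtype.comp e.symm.toMonoidHom).comp f
    have hq : q.ker ≠ ⊤ := by
      intro htop
      have : Nontrivial (Zp p) := by
        rw [← Finite.one_lt_card_iff_nontrivial, card_Zp]
        exact hp.out.one_lt
      obtain ⟨y, hy⟩ := exists_ne (1 : Zp p)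
      obtain ⟨k, hk⟩ := hf y
      have h1 : k ∈ q.ker := by rw [htop]; trivial
      rw [MonoidHom.mem_ker] at h1
      apply hy
      have h2 : ((e.symm (f k) : Subgroup.zpowers x) : X) = 1 := h1
      rw [hk] at h2
      have h3 : e.symm y = 1 := Subtype.ext h2
      rw [← e.apply_symm_apply y, h3, map_one]
    have hlt : Nat.card q.ker ≤ n := by
      by_contra hc
      push Not at hc
      apply hq
      apply Subgroup.eq_top_of_le_card
      omega
    have h1 : A.Mem q.ker := ih q.ker hlt (hP.to_subgroup _)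
    have h2 : A.Mem (RegularWreathProduct q.ker X) := hwr _ h1
    obtain ⟨θ, hθ⟩ := exists_embedding P X q
    exact A.iso (MonoidHom.ofInjective hθ).symm (hsub _ h2 θ.range)

theorem taskG : H355R3.UF.TaskG := by
  intro p _ A X _ _ _ hX _ hsub hwr P _ _ hP
  exact taskG_aux p A X hX hsub hwr _ P le_rfl hP

end Pool.Agent.H105R3.UF
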